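import Pool.Agent.H47.GE.Game

/-!
# Bob's strategy: units and double edges

`Useful v c` are the slots Alice must use: every main edge, whatever its colour, uses one of
them.  A unit is a main edge with a colour for which both slots are useful.  Bob plays units.
-/

namespace Pool.Agent.H47.GE

variable {V : Type} {k : ℕ}

/-- No two edges with a common endpoint have the same colour. -/
def Proper (G : SimpleGraph V) (p : Pos G k) : Prop :=
  ∀ e f c, Meet G e f → p e = some c → p f ≠ some c

theorem Proper.play {G : SimpleGraph V} {p : Pos G k} (hp : Proper G p) {e : G.edgeSet}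
    {a : Fin k} (hl : Legal G p e a) : Proper G (play G p e a) := by
  intro f g c hfg hf hg
  by_cases hfe : f = e
  · subst hfe
    have hgf : g ≠ f := hfg.1.symm
    rw [play_self] at hf
    rw [play_ne G p a hgf] at hg
    have hc : a = c := by simpa using hf
    exact hl.2 g hfg (hc ▸ hg)
  · by_cases hge : g = e
    · subst hge
      rw [play_self] at hg
      rw [play_ne G p a hfe] at hf
      have hc : a = c := by simpa using hg
      exact hl.2 f hfg.symm (hc ▸ hf)
    · rw [play_ne G p a hfe] at hf
      rw [play_ne G p a hge] at hg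
      exact hp f g c hfg hf hg

/-- The data of Bob's strategy. -/
structure Strat (G : SimpleGraph V) (k : ℕ) where
  /-- the main edges -/
  Main : Finset G.edgeSet
  /-- the useful slots -/
  Useful : V → Fin k → Prop
  /-- the units -/
  U : Finset (G.edgeSet × Fin k)
  hmain : ∀ u ∈ U, u.1 ∈ Main
  huse : ∀ u ∈ U, ∀ v ∈ u.1.1, Useful v u.2
  hedge : ∀ u ∈ U, ∀ u' ∈ U, u.1 = u'.1 → u.2 = u'.2
  hslot : ∀ u ∈ U, ∀ u' ∈ U, u.2 = u'.2 → ∀ v, v ∈ u.1.1 → v ∈ u'.1.1 → u.1 = u'.1
  hone : ∀ e ∈ Main, ∀ c, ∃ v ∈ e.1, Useful v c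

namespace Strat

variable {G : SimpleGraph V} (S : Strat G k)

open Classical in
/-- the units which can still be played -/
noncomputable def alive (p : Pos G k) : Finset (G.edgeSet × Fin k) :=
  S.U.filter fun u => Legal G p u.1 u.2

open Classical in
/-- the main edges coloured with both slots useful -/
noncomputable def dbl (p : Pos G k) : Finset G.edgeSet :=
  S.Main.filter fun e => ∃ c, p e = some c ∧ ∀ v ∈ e.1, S.Useful v c

open Classical in
/-- the units at a slot -/
noncomputable def at' (v : V) (a : Fin k) : Finset (G.edgeSet × Fin k) :=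
  S.U.filter fun u => u.2 = a ∧ v ∈ u.1.1

open Classical in
/-- the units at an edge -/
noncomputable def on' (e : G.edgeSet) : Finset (G.edgeSet × Fin k) :=
  S.U.filter fun u => u.1 = e

theorem card_at' (v : V) (a : Fin k) : (S.at' v a).card ≤ 1 := by
  classical
  rw [Finset.card_le_one]
  intro u hu u' hu'
  simp only [at', Finset.mem_filter] at hu hu'
  have h2 : u.2 = u'.2 := hu.2.1.trans hu'.2.1.symm
  exact Prod.ext (S.hslot u hu.1 u' hu'.1 h2 v hu.2.2 hu'.2.2) h2

theorem card_on' (e : G.edgeSet) : (S.on' e).card ≤ 1 := by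
  classical
  rw [Finset.card_le_one]
  intro u hu u' hu'
  simp only [on', Finset.mem_filter] at hu hu'
  have h1 : u.1 = u'.1 := hu.2.trans hu'.2.symm
  exact Prod.ext h1 (S.hedge u hu.1 u' hu'.1 h1)

theorem at'_eq_empty {v : V} {a : Fin k} (h : ¬ S.Useful v a) : S.at' v a = ∅ := by
  classical
  rw [Finset.eq_empty_iff_forall_notMem]
  intro u hu
  simp only [at', Finset.mem_filter] at hu
  exact h (hu.2.1 ▸ S.huse u hu.1 v hu.2.2)

theorem on'_eq_empty {e : G.edgeSet} (h : e ∉ S.Main) : S.on' e = ∅ := by
  classical
  rw [Finset.eq_empty_iff_forall_notMem]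
  intro u hu
  simp only [on', Finset.mem_filter] at hu
  exact h (hu.2 ▸ S.hmain u hu.1)

open Classical in
/-- The units killed by a move. -/
theorem alive_subset (p : Pos G k) (e : G.edgeSet) (a : Fin k) (x z : V)
    (he : e.1 = s(x, z)) :
    S.alive p ⊆ S.alive (play G p e a) ∪ (S.on' e ∪ (S.at' x a ∪ S.at' z a)) := by
  intro u hu
  simp only [alive, Finset.mem_filter] at hu
  obtain ⟨huU, hl⟩ := hu
  by_cases hue : u.1 = e
  · simp [on', huU, hue]
  by_cases hl' : Legal G (play G p e a) u.1 u.2
  · simp [alive, huU, hl']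
  · -- the edge `e` meets `u.1` and has got the colour `u.2`
    have hn : play G p e a u.1 = none := by rw [play_ne G p a hue]; exact hl.1
    have : ∃ f, Meet G u.1 f ∧ play G p e a f = some u.2 := by
      by_contra hc
      push Not at hc
      exact hl' ⟨hn, hc⟩
    obtain ⟨f, hf, hpf⟩ := this
    by_cases hfe : f = e
    · subst hfe
      rw [play_self] at hpf
      have hc : a = u.2 := by simpa using hpf
      obtain ⟨v, hv, hvf⟩ := hf.2
      rw [he, Sym2.mem_iff] at hvf
      rcases hvf with rfl | rfl
      · simp [at', huU, hc, hv]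
      · simp [at', huU, hc, hv]
    · rw [play_ne G p a hfe] at hpf
      exact absurd hpf (hl.2 f hf)

theorem dbl_subset (p : Pos G k) : S.dbl p ⊆ S.Main := by
  classical
  exact Finset.filter_subset _ _

theorem dbl_mono {p : Pos G k} {e : G.edgeSet} {a : Fin k} (hl : Legal G p e a) :
    S.dbl p ⊆ S.dbl (play G p e a) := by
  classical
  intro f hf
  simp only [dbl, Finset.mem_filter] at hf ⊢
  obtain ⟨hfM, c, hc, hu⟩ := hf
  have hfe : f ≠ e := by
    rintro rfl
    rw [hl.1] at hc
    simp at hc
  exact ⟨hfM, c, by rw [play_ne G p a hfe]; exact hc, hu⟩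

theorem dbl_succ {p : Pos G k} {e : G.edgeSet} {a : Fin k} (hl : Legal G p e a)
    (hM : e ∈ S.Main) (hu : ∀ v ∈ e.1, S.Useful v a) :
    (S.dbl p).card + 1 ≤ (S.dbl (play G p e a)).card := by
  classical
  have hnot : e ∉ S.dbl p := by
    simp only [dbl, Finset.mem_filter, not_and, not_exists]
    intro _ c hc
    rw [hl.1] at hc
    simp at hc
  have hsub : insert e (S.dbl p) ⊆ S.dbl (play G p e a) := by
    intro f hf
    rw [Finset.mem_insert] at hf
    rcases hf with rfl | hf
    · simp only [dbl, Finset.mem_filter]
      exact ⟨hM, a, play_self G p f a, hu⟩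
    · exact S.dbl_mono hl hf
  have := Finset.card_le_card hsub
  rw [Finset.card_insert_of_notMem hnot] at this
  exact this

/-- Any move costs at most two units of `alive + 3 dbl`. -/
theorem move_any {p : Pos G k} {e : G.edgeSet} {a : Fin k} (hl : Legal G p e a) :
    (S.alive p).card + 3 * (S.dbl p).card ≤
      (S.alive (play G p e a)).card + 3 * (S.dbl (play G p e a)).card + 2 := by
  classical
  obtain ⟨x, z, he⟩ : ∃ x z, e.1 = s(x, z) := by
    induction h : e.1 using Sym2.ind with
    | _ x z => exact ⟨x, z, rfl⟩
  have h0 := Finset.card_le_card (S.alive_subset p e a x z he)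
  have h1 := Finset.card_union_le (S.alive (play G p e a))
    (S.on' e ∪ (S.at' x a ∪ S.at' z a))
  have h2 := Finset.card_union_le (S.on' e) (S.at' x a ∪ S.at' z a)
  have h3 := Finset.card_union_le (S.at' x a) (S.at' z a)
  have hx := S.card_at' x a
  have hz := S.card_at' z a
  have ho := S.card_on' e
  have hm := Finset.card_le_card (S.dbl_mono hl)
  by_cases hM : e ∈ S.Main
  · by_cases hux : S.Useful x a
    · by_cases huz : S.Useful z a
      · have hd := S.dbl_succ hl hM (by
          intro v hv
          rw [he, Sym2.mem_iff] at hv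
          rcases hv with rfl | rfl
          · exact hux
          · exact huz)
        omega
      · have hz0 : (S.at' z a).card = 0 := by rw [S.at'_eq_empty huz, Finset.card_empty]
        omega
    · have hx0 : (S.at' x a).card = 0 := by rw [S.at'_eq_empty hux, Finset.card_empty]
      omega
  · have ho0 : (S.on' e).card = 0 := by rw [S.on'_eq_empty hM, Finset.card_empty]
    omega

/-- Playing a unit gains two. -/
theorem move_unit {p : Pos G k} {u : G.edgeSet × Fin k} (hu : u ∈ S.alive p) :
    (S.alive p).card + 3 * (S.dbl p).card + 2 ≤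
      (S.alive (play G p u.1 u.2)).card + 3 * (S.dbl (play G p u.1 u.2)).card := by
  classical
  have hu' := hu
  simp only [alive, Finset.mem_filter] at hu'
  obtain ⟨huU, hl⟩ := hu'
  obtain ⟨x, z, he⟩ : ∃ x z, u.1.1 = s(x, z) := by
    induction h : u.1.1 using Sym2.ind with
    | _ x z => exact ⟨x, z, rfl⟩
  have h0 := S.alive_subset p u.1 u.2 x z he
  have hsub : S.alive p ⊆ insert u (S.alive (play G p u.1 u.2)) := by
    intro w hw
    have hwU : w ∈ S.U := (Finset.mem_filter.1 hw).1
    have := h0 hw
    simp only [Finset.mem_union] at this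
    rw [Finset.mem_insert]
    rcases this with h | h | h | h
    · exact Or.inr h
    · simp only [on', Finset.mem_filter] at h
      exact Or.inl (Prod.ext h.2 (S.hedge w hwU u huU h.2))
    · simp only [at', Finset.mem_filter] at h
      have h1 := S.hslot w hwU u huU h.2.1 x h.2.2 (by rw [he]; exact Sym2.mem_mk_left x z)
      exact Or.inl (Prod.ext h1 h.2.1)
    · simp only [at', Finset.mem_filter] at h
      have h1 := S.hslot w hwU u huU h.2.1 z h.2.2 (by rw [he]; exact Sym2.mem_mk_right x z)
      exact Or.inl (Prod.ext h1 h.2.1)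
  have h1 := Finset.card_le_card hsub
  have h2 := Finset.card_insert_le u (S.alive (play G p u.1 u.2))
  have h3 := S.dbl_succ hl (S.hmain u huU) (S.huse u huU)
  omega

open Classical in
/-- The number of useful slots bounds the number of coloured main edges plus the doubles. -/
theorem full_count [Fintype V] {p : Pos G k} (hp : Proper G p) (hfull : ∀ e, p e ≠ none) :
    S.Main.card + (S.dbl p).card ≤
      ((Finset.univ : Finset (V × Fin k)).filter fun q => S.Useful q.1 q.2).card := by
  -- the colour of an edge
  have hcol : ∀ e, ∃ c, p e = some c := fun e => Option.ne_none_iff_exists'.1 (hfull e)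
  choose col hcol using hcol
  set I : Finset (G.edgeSet × V) := (S.Main ×ˢ (Finset.univ : Finset V)).filter
    fun q => q.2 ∈ q.1.1 ∧ S.Useful q.2 (col q.1) with hI
  have h1 : I.card ≤
      ((Finset.univ : Finset (V × Fin k)).filter fun q => S.Useful q.1 q.2).card := by
    refine Finset.card_le_card_of_injOn (fun q => (q.2, col q.1)) ?_ ?_
    · intro q hq
      rw [hI, Finset.coe_filter] at hq
      simp only [Finset.coe_filter, Finset.mem_univ, true_and, Set.mem_ofPred_eq]
      exact hq.2.2
    · intro q hq q' hq' heq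
      rw [hI, Finset.coe_filter] at hq hq'
      simp only [Prod.mk.injEq] at heq
      refine Prod.ext ?_ heq.1
      by_contra hne
      refine hp q.1 q'.1 (col q.1) ⟨hne, q.2, hq.2.1, ?_⟩ (hcol _) ?_
      · rw [heq.1]; exact hq'.2.1
      · rw [heq.2]; exact hcol _
  have h2 : I.card = ∑ e ∈ S.Main,
      ((Finset.univ : Finset V).filter fun v => v ∈ e.1 ∧ S.Useful v (col e)).card := by
    rw [hI, Finset.card_filter, Finset.sum_product]
    refine Finset.sum_congr rfl fun e _ => ?_
    rw [Finset.card_filter]
  have h3 : ∀ e ∈ S.Main, 1 + (if e ∈ S.dbl p then 1 else 0) ≤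
      ((Finset.univ : Finset V).filter fun v => v ∈ e.1 ∧ S.Useful v (col e)).card := by
    intro e heM
    obtain ⟨x, z, he⟩ : ∃ x z, e.1 = s(x, z) := by
      induction h : e.1 using Sym2.ind with
      | _ x z => exact ⟨x, z, rfl⟩
    have hxz : x ≠ z := by
      have h := e.2
      rw [he, SimpleGraph.mem_edgeSet] at h
      exact h.ne
    split_ifs with hd
    · simp only [dbl, Finset.mem_filter] at hd
      obtain ⟨-, c, hc, hu⟩ := hd
      have hcc : c = col e := by
        have := (hcol e).symm.trans hc
        exact (by simpa using this : col e = c).symm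
      subst hcc
      have hsub : ({x, z} : Finset V) ⊆
          (Finset.univ : Finset V).filter fun v => v ∈ e.1 ∧ S.Useful v (col e) := by
        intro v hv
        have hv' : v ∈ e.1 := by
          rw [he, Sym2.mem_iff]
          simpa using hv
        exact Finset.mem_filter.2 ⟨Finset.mem_univ _, hv', hu v hv'⟩
      have := Finset.card_le_card hsub
      rw [Finset.card_pair hxz] at this
      exact this
    · obtain ⟨v, hv, hu⟩ := S.hone e heM (col e)
      have : 0 < ((Finset.univ : Finset V).filter
          fun v => v ∈ e.1 ∧ S.Useful v (col e)).card :=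
        Finset.card_pos.2 ⟨v, Finset.mem_filter.2 ⟨Finset.mem_univ _, hv, hu⟩⟩
      omega
  have h4 := Finset.sum_le_sum h3
  rw [← h2, Finset.sum_add_distrib, Finset.sum_const, smul_eq_mul, mul_one,
    ← Finset.card_filter] at h4
  have h5 : S.Main.filter (fun e => e ∈ S.dbl p) = S.dbl p := by
    ext e
    simp only [Finset.mem_filter]
    exact ⟨fun h => h.2, fun h => ⟨S.dbl_subset p h, h⟩⟩
  rw [h5] at h4
  omega

open Classical in
/-- The invariant kept by Bob. -/
theorem invariant [Fintype V]
    (hH : 3 * ((Finset.univ : Finset (V × Fin k)).filter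
      fun q => S.Useful q.1 q.2).card + 2 < S.U.card + 3 * S.Main.card) :
    ∀ (t : Bool) (p : Pos G k), AliceWins G t p → Proper G p →
      ¬ (S.U.card ≤ (S.alive p).card + 3 * (S.dbl p).card + 2 ∧
        (t = true → S.U.card ≤ (S.alive p).card + 3 * (S.dbl p).card ∨
          S.U.card ≤ 3 * (S.dbl p).card + 2)) := by
  intro t p hw
  induction hw with
  | full t p hfull =>
    rintro hp ⟨h1, -⟩
    have h2 := S.full_count hp hfull
    have h3 : (S.alive p).card = 0 := by
      rw [Finset.card_eq_zero, Finset.eq_empty_iff_forall_notMem]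
      intro u hu
      exact hfull u.1 (Finset.mem_filter.1 hu).2.1
    omega
  | alice p e a _ hl _ ih =>
    rintro hp ⟨-, h1⟩
    refine ih (hp.play hl) ⟨?_, fun h => absurd h (by simp)⟩
    have h2 := S.move_any hl
    have h3 := Finset.card_le_card (S.dbl_mono hl)
    rcases h1 rfl with h1 | h1
    · omega
    · omega
  | bob p hb hne _ ih =>
    rintro hp ⟨h1, -⟩
    by_cases h0 : (S.alive p).card = 0
    · obtain ⟨e, a, hl⟩ := exists_legal hb hne
      have h3 := Finset.card_le_card (S.dbl_mono hl)
      refine ih e a hl (hp.play hl) ⟨?_, fun _ => Or.inr ?_⟩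
      · omega
      · omega
    · obtain ⟨u, hu⟩ := Finset.card_pos.1 (Nat.pos_of_ne_zero h0)
      have h3 := S.move_unit hu
      have hl : Legal G p u.1 u.2 := (Finset.mem_filter.1 hu).2
      refine ih u.1 u.2 hl (hp.play hl) ⟨?_, fun _ => Or.inl ?_⟩
      · omega
      · omega

open Classical in
/-- Bob wins if there are enough units. -/
theorem not_aliceWinsWith [Fintype V]
    (hH : 3 * ((Finset.univ : Finset (V × Fin k)).filter
      fun q => S.Useful q.1 q.2).card + 2 < S.U.card + 3 * S.Main.card) :
    ¬ AliceWinsWith G k := by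
  intro hw
  have hp : Proper G (fun _ => none : Pos G k) := by
    intro e f c _ h
    simp at h
  have h0 : S.alive (fun _ => none : Pos G k) = S.U := by
    ext u
    simp only [alive, Finset.mem_filter, and_iff_left_iff_imp]
    intro _
    exact ⟨rfl, fun f _ => by simp⟩
  refine S.invariant hH true _ hw hp ⟨?_, fun _ => Or.inl ?_⟩
  · rw [h0]; omega
  · rw [h0]; omega

end Strat

end Pool.Agent.H47.GE
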