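import Pool.Agent.H47.GE.Abs

/-!
# The graphs

The blow up of the middle levels graph, with a few extra edges to get every degree.
-/

namespace Pool.Agent.H47.GE

/-- The `m`-element subsets of a set with `2 m + 1` elements. -/
abbrev X (m : ℕ) : Type := {x : Finset (Fin (2 * m + 1)) // x.card = m}

/-- One side of the graph: `b` copies of each `m`-set. -/
abbrev W (m b : ℕ) : Type := X m × ZMod b

variable {m b : ℕ}

/-- The adjacency between the two sides: disjoint sets, and some extra edges between the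
copies of the same set. -/
def R (D : Finset (ZMod b)) (u v : W m b) : Prop :=
  Disjoint u.1.1 v.1.1 ∨ (u.1 = v.1 ∧ v.2 - u.2 ∈ D)

/-- The bipartite graph given by `R`. -/
def Gr (m b : ℕ) (D : Finset (ZMod b)) : SimpleGraph (Bool × W m b) where
  Adj p q := (p.1 = false ∧ q.1 = true ∧ R D p.2 q.2) ∨
    (p.1 = true ∧ q.1 = false ∧ R D q.2 p.2)
  symm := ⟨by
    rintro p q (⟨h1, h2, h3⟩ | ⟨h1, h2, h3⟩)
    · exact Or.inr ⟨h2, h1, h3⟩
    · exact Or.inl ⟨h2, h1, h3⟩⟩
  loopless := ⟨by
    rintro p (⟨h1, h2, -⟩ | ⟨h1, h2, -⟩)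
    · rw [h1] at h2; exact absurd h2 (by simp)
    · rw [h1] at h2; exact absurd h2 (by simp)⟩

/-! ## Counting sets -/

theorem card_X_notMem (i : Fin (2 * m + 1)) :
    ((Finset.univ : Finset (X m)).filter fun x => i ∉ x.1).card = (2 * m).choose m := by
  classical
  have h : ((Finset.univ : Finset (X m)).filter fun x => i ∉ x.1).map
      (Function.Embedding.subtype _) = Finset.powersetCard m (Finset.univ.erase i) := by
    ext x
    simp only [Finset.mem_map, Finset.mem_filter, Finset.mem_univ, true_and,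
      Function.Embedding.coe_subtype, Subtype.exists, exists_and_right,
      exists_prop, exists_eq_right, Finset.mem_powersetCard]
    constructor
    · rintro ⟨h2, h1⟩
      refine ⟨fun j hj => Finset.mem_erase.2 ⟨?_, Finset.mem_univ _⟩, h2⟩
      rintro rfl
      exact h1 hj
    · rintro ⟨h1, h2⟩
      exact ⟨h2, fun hi => (Finset.mem_erase.1 (h1 hi)).1 rfl⟩
  have h2 := congrArg Finset.card h
  rw [Finset.card_map, Finset.card_powersetCard, Finset.card_erase_of_mem (Finset.mem_univ _),
    Finset.card_univ, Fintype.card_fin] at h2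
  simpa using h2

theorem card_X_disjoint (y : X m) :
    ((Finset.univ : Finset (X m)).filter fun x => Disjoint y.1 x.1).card = m + 1 := by
  classical
  have h : ((Finset.univ : Finset (X m)).filter fun x => Disjoint y.1 x.1).map
      (Function.Embedding.subtype _) = Finset.powersetCard m y.1ᶜ := by
    ext x
    simp only [Finset.mem_map, Finset.mem_filter, Finset.mem_univ, true_and,
      Function.Embedding.coe_subtype, Subtype.exists, exists_and_right,
      exists_prop, exists_eq_right, Finset.mem_powersetCard]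
    rw [Finset.subset_compl_comm, Finset.subset_compl_iff_disjoint_right, and_comm]
  have h2 := congrArg Finset.card h
  rw [Finset.card_map, Finset.card_powersetCard, Finset.card_compl, Fintype.card_fin, y.2] at h2
  rw [h2]
  have : 2 * m + 1 - m = m + 1 := by omega
  rw [this, Nat.choose_succ_self_right]

theorem card_W (P : X m → Prop) [DecidablePred P] [NeZero b] :
    ((Finset.univ : Finset (W m b)).filter fun u => P u.1).card =
      ((Finset.univ : Finset (X m)).filter P).card * b := by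
  classical
  have h : ((Finset.univ : Finset (W m b)).filter fun u => P u.1) =
      ((Finset.univ : Finset (X m)).filter P) ×ˢ (Finset.univ : Finset (ZMod b)) := by
    ext u
    simp
  rw [h, Finset.card_product, Finset.card_univ, ZMod.card]

/-! ## Degrees -/

theorem ncard_disjoint [NeZero b] (u : W m b) :
    {v : W m b | Disjoint u.1.1 v.1.1}.ncard = (m + 1) * b := by
  classical
  rw [← card_X_disjoint u.1, ← card_W, ← Set.ncard_coe_finset]
  congr 1
  ext v
  simp

theorem disj_right (hm : 1 ≤ m) (u : W m b) (D : Finset (ZMod b)) :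
    Disjoint {v : W m b | Disjoint u.1.1 v.1.1} {v | u.1 = v.1 ∧ v.2 - u.2 ∈ D} := by
  rw [Set.disjoint_left]
  rintro v hv ⟨h1, -⟩
  simp only [Set.mem_ofPred_eq] at hv
  rw [← h1, disjoint_self, Finset.bot_eq_empty, ← Finset.card_eq_zero, u.1.2] at hv
  omega

theorem disj_left (hm : 1 ≤ m) (v : W m b) (D : Finset (ZMod b)) :
    Disjoint {u : W m b | Disjoint v.1.1 u.1.1} {u | u.1 = v.1 ∧ v.2 - u.2 ∈ D} := by
  rw [Set.disjoint_left]
  rintro u hu ⟨h1, -⟩
  simp only [Set.mem_ofPred_eq] at hu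
  rw [h1, disjoint_self, Finset.bot_eq_empty, ← Finset.card_eq_zero, v.1.2] at hu
  omega

theorem ncard_right [NeZero b] (hm : 1 ≤ m) (D : Finset (ZMod b)) (u : W m b) :
    {v : W m b | R D u v}.ncard = (m + 1) * b + D.card := by
  classical
  have h : {v : W m b | R D u v} =
      {v : W m b | Disjoint u.1.1 v.1.1} ∪ {v | u.1 = v.1 ∧ v.2 - u.2 ∈ D} := rfl
  rw [h, Set.ncard_union_eq (disj_right hm u D) (Set.toFinite _) (Set.toFinite _),
    ncard_disjoint]
  congr 1
  have h2 : {v : W m b | u.1 = v.1 ∧ v.2 - u.2 ∈ D} =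
      (fun s => (u.1, u.2 + s)) '' (D : Set (ZMod b)) := by
    ext v
    simp only [Set.mem_ofPred_eq, Set.mem_image, Finset.mem_coe]
    constructor
    · rintro ⟨h1, h2⟩
      exact ⟨_, h2, Prod.ext h1 (by simp)⟩
    · rintro ⟨s, hs, rfl⟩
      simpa using hs
  rw [h2, Set.ncard_image_of_injective, Set.ncard_coe_finset]
  intro s s' hs
  simpa using hs

theorem ncard_left [NeZero b] (hm : 1 ≤ m) (D : Finset (ZMod b)) (v : W m b) :
    {u : W m b | R D u v}.ncard = (m + 1) * b + D.card := by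
  classical
  have h : {u : W m b | R D u v} =
      {u : W m b | Disjoint v.1.1 u.1.1} ∪ {u | u.1 = v.1 ∧ v.2 - u.2 ∈ D} := by
    ext u
    simp only [R, Set.mem_union, Set.mem_ofPred_eq]
    rw [disjoint_comm]
  rw [h, Set.ncard_union_eq (disj_left hm v D) (Set.toFinite _) (Set.toFinite _),
    ncard_disjoint]
  congr 1
  have h2 : {u : W m b | u.1 = v.1 ∧ v.2 - u.2 ∈ D} =
      (fun s => (v.1, v.2 - s)) '' (D : Set (ZMod b)) := by
    ext u
    simp only [Set.mem_ofPred_eq, Set.mem_image, Finset.mem_coe]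
    constructor
    · rintro ⟨h1, h2⟩
      exact ⟨_, h2, Prod.ext h1.symm (by simp)⟩
    · rintro ⟨s, hs, rfl⟩
      simpa using hs
  rw [h2, Set.ncard_image_of_injective, Set.ncard_coe_finset]
  intro s s' hs
  simpa using hs

/-- The graph is regular. -/
theorem Gr_regular [NeZero b] (hm : 1 ≤ m) (D : Finset (ZMod b)) (v : Bool × W m b) :
    ((Gr m b D).neighborSet v).ncard = (m + 1) * b + D.card := by
  obtain ⟨t, u⟩ := v
  cases t with
  | false =>
    rw [← ncard_right hm D u]
    have h : (Gr m b D).neighborSet (false, u) = (fun v => (true, v)) '' {v | R D u v} := by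
      ext q
      simp only [SimpleGraph.mem_neighborSet, Gr, Set.mem_image, Set.mem_ofPred_eq]
      constructor
      · rintro (⟨-, h2, h3⟩ | ⟨h1, -⟩)
        · exact ⟨q.2, h3, Prod.ext h2.symm rfl⟩
        · exact absurd h1 (by simp)
      · rintro ⟨v, hv, rfl⟩
        exact Or.inl ⟨trivial, rfl, hv⟩
    rw [h, Set.ncard_image_of_injective]
    intro s s' hs
    simpa using hs
  | true =>
    rw [← ncard_left hm D u]
    have h : (Gr m b D).neighborSet (true, u) = (fun v => (false, v)) '' {v | R D v u} := by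
      ext q
      simp only [SimpleGraph.mem_neighborSet, Gr, Set.mem_image, Set.mem_ofPred_eq]
      constructor
      · rintro (⟨h1, -⟩ | ⟨-, h2, h3⟩)
        · exact absurd h1 (by simp)
        · exact ⟨q.2, h3, Prod.ext h2.symm rfl⟩
      · rintro ⟨v, hv, rfl⟩
        exact Or.inr ⟨trivial, rfl, hv⟩
    rw [h, Set.ncard_image_of_injective]
    intro s s' hs
    simpa using hs

/-! ## The units -/

/-- Two disjoint `m`-sets avoiding `i` determine each other. -/
theorem eq_compl {x y : X m} {i : Fin (2 * m + 1)} (hd : Disjoint x.1 y.1) (hx : i ∉ x.1)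
    (hy : i ∉ y.1) : y.1 = (insert i x.1)ᶜ := by
  refine Finset.eq_of_subset_of_card_le ?_ ?_
  · intro j hj
    rw [Finset.mem_compl, Finset.mem_insert, not_or]
    refine ⟨?_, fun hjx => Finset.disjoint_left.1 hd hjx hj⟩
    rintro rfl
    exact hy hj
  · rw [Finset.card_compl, Finset.card_insert_of_notMem hx, Fintype.card_fin, x.2, y.2]
    omega

theorem exists_mate {x : X m} {i : Fin (2 * m + 1)} (hx : i ∉ x.1) :
    ∃ y : X m, Disjoint x.1 y.1 ∧ i ∉ y.1 := by
  refine ⟨⟨(insert i x.1)ᶜ, ?_⟩, ?_, ?_⟩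
  · rw [Finset.card_compl, Finset.card_insert_of_notMem hx, Fintype.card_fin, x.2]
    omega
  · rw [Finset.disjoint_left]
    intro j hj
    simp [hj]
  · simp

/-- The pair `u, v` with the colour `c` is a unit. -/
def Unt {k : ℕ} (φ : Fin k ↪ Fin (2 * m + 1) × ZMod b) (c : Fin k) (u v : W m b) : Prop :=
  Disjoint u.1.1 v.1.1 ∧ (φ c).1 ∉ u.1.1 ∧ (φ c).1 ∉ v.1.1 ∧ v.2 = u.2 + (φ c).2

theorem Unt.right {k : ℕ} {φ : Fin k ↪ Fin (2 * m + 1) × ZMod b} {c : Fin k} {u v v' : W m b}
    (h : Unt φ c u v) (h' : Unt φ c u v') : v = v' := by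
  refine Prod.ext (Subtype.ext ?_) ?_
  · rw [eq_compl h.1 h.2.1 h.2.2.1, eq_compl h'.1 h'.2.1 h'.2.2.1]
  · rw [h.2.2.2, h'.2.2.2]

theorem Unt.left {k : ℕ} {φ : Fin k ↪ Fin (2 * m + 1) × ZMod b} {c : Fin k} {u u' v : W m b}
    (h : Unt φ c u v) (h' : Unt φ c u' v) : u = u' := by
  refine Prod.ext (Subtype.ext ?_) ?_
  · rw [eq_compl h.1.symm h.2.2.1 h.2.1, eq_compl h'.1.symm h'.2.2.1 h'.2.1]
  · exact add_right_cancel (h.2.2.2.symm.trans h'.2.2.2)

theorem Unt.col {k : ℕ} {φ : Fin k ↪ Fin (2 * m + 1) × ZMod b} {c c' : Fin k} {u v : W m b}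
    (h : Unt φ c u v) (h' : Unt φ c' u v) : c = c' := by
  apply φ.injective
  refine Prod.ext ?_ ?_
  · have h1 := eq_compl h.1 h.2.1 h.2.2.1
    have h2 := h'.2.2.1
    rw [h1, Finset.mem_compl, not_not, Finset.mem_insert] at h2
    rcases h2 with h2 | h2
    · exact h2.symm
    · exact absurd h2 h'.2.1
  · exact add_left_cancel (h.2.2.2.symm.trans h'.2.2.2)

theorem edge_inj {u v u' v' : W m b}
    (h : s(((false, u) : Bool × W m b), (true, v)) = s((false, u'), (true, v'))) :
    u = u' ∧ v = v' := by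
  rw [Sym2.eq_iff] at h
  rcases h with ⟨h1, h2⟩ | ⟨h1, -⟩
  · exact ⟨(Prod.ext_iff.1 h1).2, (Prod.ext_iff.1 h2).2⟩
  · exact absurd (Prod.ext_iff.1 h1).1 (by simp)

open Classical in
/-- The data of Bob's strategy on the graph. -/
noncomputable def strat [NeZero b] {k : ℕ} (D : Finset (ZMod b))
    (φ : Fin k ↪ Fin (2 * m + 1) × ZMod b) : Strat (Gr m b D) k where
  Main := (Set.toFinite {e : (Gr m b D).edgeSet | ∃ u v : W m b,
    Disjoint u.1.1 v.1.1 ∧ e.1 = s((false, u), (true, v))}).toFinset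
  Useful w c := (φ c).1 ∉ w.2.1.1
  U := (Set.toFinite {q : (Gr m b D).edgeSet × Fin k | ∃ u v : W m b,
    Unt φ q.2 u v ∧ q.1.1 = s((false, u), (true, v))}).toFinset
  hmain := by
    intro q hq
    simp only [Set.Finite.mem_toFinset, Set.mem_ofPred_eq] at hq ⊢
    obtain ⟨u, v, h1, h2⟩ := hq
    exact ⟨u, v, h1.1, h2⟩
  huse := by
    intro q hq w hw
    simp only [Set.Finite.mem_toFinset, Set.mem_ofPred_eq] at hq
    obtain ⟨u, v, h1, h2⟩ := hq
    rw [h2, Sym2.mem_iff] at hw
    rcases hw with rfl | rfl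
    · exact h1.2.1
    · exact h1.2.2.1
  hedge := by
    intro q hq q' hq' h
    simp only [Set.Finite.mem_toFinset, Set.mem_ofPred_eq] at hq hq'
    obtain ⟨u, v, h1, h2⟩ := hq
    obtain ⟨u', v', h1', h2'⟩ := hq'
    rw [h, h2'] at h2
    obtain ⟨rfl, rfl⟩ := edge_inj h2
    exact h1.col h1'
  hslot := by
    intro q hq q' hq' hc w hw hw'
    simp only [Set.Finite.mem_toFinset, Set.mem_ofPred_eq] at hq hq'
    obtain ⟨u, v, h1, h2⟩ := hq
    obtain ⟨u', v', h1', h2'⟩ := hq'
    rw [h2, Sym2.mem_iff] at hw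
    rw [h2', Sym2.mem_iff] at hw'
    rw [← hc] at h1'
    refine Subtype.ext ?_
    rw [h2, h2']
    rcases hw with rfl | rfl <;> rcases hw' with hw' | hw'
    · have hu : u = u' := (Prod.ext_iff.1 hw').2
      subst hu
      rw [h1.right h1']
    · exact absurd (Prod.ext_iff.1 hw').1 (by simp)
    · exact absurd (Prod.ext_iff.1 hw').1 (by simp)
    · have hv : v = v' := (Prod.ext_iff.1 hw').2
      subst hv
      rw [h1.left h1']
  hone := by
    intro e he c
    simp only [Set.Finite.mem_toFinset, Set.mem_ofPred_eq] at he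
    obtain ⟨u, v, h1, h2⟩ := he
    rw [h2]
    by_cases hu : (φ c).1 ∈ u.1.1
    · exact ⟨(true, v), Sym2.mem_mk_right _ _, Finset.disjoint_left.1 h1 hu⟩
    · exact ⟨(false, u), Sym2.mem_mk_left _ _, hu⟩

variable [NeZero b] {k : ℕ} (D : Finset (ZMod b)) (φ : Fin k ↪ Fin (2 * m + 1) × ZMod b)

theorem card_U : k * ((2 * m).choose m * b) ≤ (strat D φ).U.card := by
  classical
  have h1 : ((Finset.univ : Finset (Fin k × W m b)).filter
      fun q => (φ q.1).1 ∉ q.2.1.1).card = k * ((2 * m).choose m * b) := by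
    rw [Finset.card_filter, Fintype.sum_prod_type]
    have : ∀ c : Fin k, (∑ u : W m b, if (φ c).1 ∉ u.1.1 then 1 else 0) =
        (2 * m).choose m * b := by
      intro c
      rw [← Finset.card_filter, card_W (fun x : X m => (φ c).1 ∉ x.1), card_X_notMem]
    rw [Finset.sum_congr rfl fun c _ => this c]
    simp
  rw [← h1]
  refine Finset.card_le_card_of_forall_subsingleton
    (fun (a : Fin k × W m b) (q : (Gr m b D).edgeSet × Fin k) =>
      q.2 = a.1 ∧ (false, a.2) ∈ q.1.1) ?_ ?_
  · rintro ⟨c, u⟩ hu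
    simp only [Finset.mem_filter, Finset.mem_univ, true_and] at hu
    obtain ⟨y, hy1, hy2⟩ := exists_mate hu
    refine ⟨(⟨s((false, u), (true, (y, u.2 + (φ c).2))), ?_⟩, c), ?_, rfl,
      Sym2.mem_mk_left _ _⟩
    · rw [SimpleGraph.mem_edgeSet]
      exact Or.inl ⟨rfl, rfl, Or.inl hy1⟩
    · simp only [strat, Set.Finite.mem_toFinset, Set.mem_ofPred_eq]
      exact ⟨u, (y, u.2 + (φ c).2), ⟨hy1, hu, hy2, rfl⟩, rfl⟩
  · intro q hq a ha a' ha'
    simp only [strat, Set.Finite.mem_toFinset, Set.mem_ofPred_eq] at hq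
    obtain ⟨u, v, h1, h2⟩ := hq
    simp only [Set.mem_ofPred_eq] at ha ha'
    obtain ⟨-, ha1, ha2⟩ := ha
    obtain ⟨-, ha1', ha2'⟩ := ha'
    rw [h2, Sym2.mem_iff] at ha2 ha2'
    refine Prod.ext (ha1.symm.trans ha1') ?_
    rcases ha2 with ha2 | ha2
    · rcases ha2' with ha2' | ha2'
      · exact (Prod.ext_iff.1 (ha2.trans ha2'.symm)).2
      · exact absurd (Prod.ext_iff.1 ha2').1 (by simp)
    · exact absurd (Prod.ext_iff.1 ha2).1 (by simp)

theorem card_Main : (2 * m + 1) * ((2 * m).choose m * b) * b ≤ (strat D φ).Main.card := by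
  classical
  have h0 : (2 * m + 1).choose m * (m + 1) = (2 * m + 1) * (2 * m).choose m := by
    have h := Nat.add_one_mul_choose_eq (2 * m) m
    rw [h, Nat.choose_symm_half]
  have h1 : ((Finset.univ : Finset (W m b × W m b)).filter
      fun q => Disjoint q.1.1.1 q.2.1.1).card = (2 * m + 1) * ((2 * m).choose m * b) * b := by
    rw [Finset.card_filter, Fintype.sum_prod_type]
    have : ∀ u : W m b, (∑ v : W m b, if Disjoint u.1.1 v.1.1 then 1 else 0) =
        (m + 1) * b := by
      intro u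
      rw [← Finset.card_filter, card_W (fun x : X m => Disjoint u.1.1 x.1), card_X_disjoint]
    rw [Finset.sum_congr rfl fun u _ => this u]
    simp only [Finset.sum_const, smul_eq_mul, Finset.card_univ, Fintype.card_prod, ZMod.card,
      Fintype.card_finset_len, Fintype.card_fin]
    calc (2 * m + 1).choose m * b * ((m + 1) * b)
        = ((2 * m + 1).choose m * (m + 1)) * b * b := by ring
      _ = _ := by rw [h0]; ring
  rw [← h1]
  refine Finset.card_le_card_of_forall_subsingleton
    (fun (a : W m b × W m b) (e : (Gr m b D).edgeSet) =>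
      e.1 = s((false, a.1), (true, a.2))) ?_ ?_
  · rintro ⟨u, v⟩ hu
    simp only [Finset.mem_filter, Finset.mem_univ, true_and] at hu
    refine ⟨⟨s((false, u), (true, v)), ?_⟩, ?_, rfl⟩
    · rw [SimpleGraph.mem_edgeSet]
      exact Or.inl ⟨rfl, rfl, Or.inl hu⟩
    · simp only [strat, Set.Finite.mem_toFinset, Set.mem_ofPred_eq]
      exact ⟨u, v, hu, rfl⟩
  · intro e _ a ha a' ha'
    simp only [Set.mem_ofPred_eq] at ha ha'
    have := edge_inj (ha.2.symm.trans ha'.2)
    exact Prod.ext this.1 this.2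

open Classical in
theorem card_slots : ((Finset.univ : Finset ((Bool × W m b) × Fin k)).filter
    fun q => (strat D φ).Useful q.1 q.2).card = 2 * (k * ((2 * m).choose m * b)) := by
  rw [Finset.card_filter, Fintype.sum_prod_type, Finset.sum_comm]
  have : ∀ c : Fin k, (∑ w : Bool × W m b, if (strat D φ).Useful w c then 1 else 0) =
      2 * ((2 * m).choose m * b) := by
    intro c
    rw [Fintype.sum_prod_type]
    have h : ∀ t : Bool, (∑ u : W m b, if (strat D φ).Useful (t, u) c then 1 else 0) =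
        (2 * m).choose m * b := by
      intro t
      rw [← Finset.card_filter, ← card_X_notMem (φ c).1,
        ← card_W (fun x : X m => (φ c).1 ∉ x.1)]
      congr 1
      ext u
      simp [strat]
    rw [Finset.sum_congr rfl fun t _ => h t]
    simp
  rw [Finset.sum_congr rfl fun c _ => this c]
  simp
  ring

/-- Alice loses on the graph if `5 k < 3 (2 m + 1) b`. -/
theorem not_aliceWinsWith_Gr (hb : 3 ≤ b) (hk : 5 * k < 3 * ((2 * m + 1) * b)) :
    ¬ AliceWinsWith (Gr m b D) k := by
  classical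
  have hcard : Fintype.card (Fin k) ≤ Fintype.card (Fin (2 * m + 1) × ZMod b) := by
    rw [Fintype.card_prod, ZMod.card, Fintype.card_fin, Fintype.card_fin]
    omega
  obtain ⟨φ⟩ := Function.Embedding.nonempty_of_card_le hcard
  apply (strat D φ).not_aliceWinsWith
  rw [card_slots D φ]
  have h1 := card_U D φ
  have h2 := card_Main D φ
  set h : ℕ := (2 * m).choose m * b with hh
  have hpos : 3 ≤ h := by
    have : 0 < (2 * m).choose m := Nat.choose_pos (by omega)
    nlinarith
  have h3 : (5 * k + 1) * h ≤ 3 * ((2 * m + 1) * b) * h := Nat.mul_le_mul_right h hk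
  have h4 : 3 * ((2 * m + 1) * b) * h = 3 * ((2 * m + 1) * h * b) := by ring
  have h5 : (5 * k + 1) * h = 5 * (k * h) + h := by ring
  rw [h4, h5] at h3
  omega

end Pool.Agent.H47.GE
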