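import Mathlib

/-!
# The edge colouring game

Two players, Alice and Bob, alternately colour an uncoloured edge of a graph `G` with one of
`k` colours, different from the colours of the edges sharing an endpoint with it.  Alice moves
first.  Bob wins as soon as some uncoloured edge has no legal colour; Alice wins if all edges
get coloured.
-/

namespace Pool.Agent.H47.GE

variable {V : Type} {k : ℕ}

/-- A position of the game with `k` colours: the colours given so far. -/
abbrev Pos (G : SimpleGraph V) (k : ℕ) : Type := G.edgeSet → Option (Fin k)

/-- Different edges sharing an endpoint. -/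
def Meet (G : SimpleGraph V) (e f : G.edgeSet) : Prop :=
  e ≠ f ∧ ∃ v, v ∈ e.1 ∧ v ∈ f.1

/-- In position `p` the uncoloured edge `e` may be given the colour `a`. -/
def Legal (G : SimpleGraph V) (p : Pos G k) (e : G.edgeSet) (a : Fin k) : Prop :=
  p e = none ∧ ∀ f, Meet G e f → p f ≠ some a

open Classical in
/-- The position after the edge `e` has been given the colour `a`. -/
noncomputable def play (G : SimpleGraph V) (p : Pos G k) (e : G.edgeSet) (a : Fin k) :
    Pos G k := Function.update p e (some a)

/-- Bob has won: there is an uncoloured edge with no legal colour. -/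
def BobWon (G : SimpleGraph V) (p : Pos G k) : Prop :=
  ∃ e, p e = none ∧ ∀ a, ¬ Legal G p e a

/-- Alice can force that all edges get coloured, from the position `p`; it is Alice's turn if
the first argument is `true`, and Bob's turn if it is `false`. -/
inductive AliceWins (G : SimpleGraph V) {k : ℕ} : Bool → Pos G k → Prop
  | full (t : Bool) (p : Pos G k) (h : ∀ e, p e ≠ none) : AliceWins G t p
  | alice (p : Pos G k) (e : G.edgeSet) (a : Fin k) (h : ¬ BobWon G p) (hl : Legal G p e a)
      (hw : AliceWins G false (play G p e a)) : AliceWins G true p
  | bob (p : Pos G k) (h : ¬ BobWon G p) (hne : ∃ e, p e = none)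
      (hw : ∀ e a, Legal G p e a → AliceWins G true (play G p e a)) : AliceWins G false p

/-- Alice has a winning strategy in the edge colouring game on `G` with `k` colours. -/
def AliceWinsWith (G : SimpleGraph V) (k : ℕ) : Prop :=
  AliceWins G true (fun _ => none : Pos G k)

/-- The game chromatic index of `G`. -/
noncomputable def gameIndex (G : SimpleGraph V) : ℕ := sInf {k | AliceWinsWith G k}

/-! ## Moves -/

theorem play_self (G : SimpleGraph V) (p : Pos G k) (e : G.edgeSet) (a : Fin k) :
    play G p e a e = some a := by
  classical
  simp [play]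

theorem play_ne (G : SimpleGraph V) (p : Pos G k) {e f : G.edgeSet} (a : Fin k) (h : f ≠ e) :
    play G p e a f = p f := by
  classical
  simp [play, Function.update_of_ne h]

theorem Meet.symm {G : SimpleGraph V} {e f : G.edgeSet} (h : Meet G e f) : Meet G f e :=
  ⟨h.1.symm, h.2.imp fun _ hv => ⟨hv.2, hv.1⟩⟩

/-- With more colours than edges there is always a legal colour. -/
theorem not_bobWon [Fintype V] (G : SimpleGraph V) (p : Pos G k)
    (hk : Nat.card G.edgeSet ≤ k) : ¬ BobWon G p := by
  classical
  rintro ⟨e, he, hb⟩
  have : Fintype G.edgeSet := Fintype.ofFinite _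
  -- the colours used at the other edges
  have h1 : ∀ a : Fin k, ∃ f : G.edgeSet, f ≠ e ∧ p f = some a := by
    intro a
    by_contra hc
    push Not at hc
    refine hb a ⟨he, fun f hf hpf => hc f hf.1.symm hpf⟩
  choose g hg using h1
  have hinj : Function.Injective g := by
    intro a b hab
    have ha := (hg a).2
    have hb' := (hg b).2
    rw [hab, hb'] at ha
    exact (Option.some_injective _ ha).symm
  have hlt : Fintype.card (Fin k) < Fintype.card G.edgeSet := by
    refine Fintype.card_lt_of_injective_of_notMem g hinj (b := e) ?_
    rintro ⟨a, ha⟩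
    exact (hg a).1 ha
  rw [Fintype.card_fin, ← Nat.card_eq_fintype_card] at hlt
  omega

theorem exists_legal {G : SimpleGraph V} {p : Pos G k} (h : ¬ BobWon G p)
    (hne : ∃ e, p e = none) : ∃ e a, Legal G p e a := by
  obtain ⟨e, he⟩ := hne
  by_contra hc
  push Not at hc
  exact h ⟨e, he, hc e⟩

theorem aliceWins_of_card [Fintype V] (G : SimpleGraph V) (hk : Nat.card G.edgeSet ≤ k) :
    ∀ (n : ℕ) (t : Bool) (p : Pos G k), {e | p e = none}.ncard ≤ n → AliceWins G t p := by
  classical
  have hdec : ∀ (p : Pos G k) (e : G.edgeSet) (a : Fin k), Legal G p e a →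
      {f | play G p e a f = none}.ncard < {f | p f = none}.ncard := by
    intro p e a hl
    refine Set.ncard_lt_ncard ?_ (Set.toFinite _)
    rw [Set.ssubset_iff_of_subset]
    · exact ⟨e, hl.1, by simp [play_self]⟩
    · intro f hf
      by_cases hfe : f = e
      · subst hfe
        simp [play_self] at hf
      · simpa [play_ne G p a hfe] using hf
  intro n
  induction n with
  | zero =>
    intro t p hp
    refine AliceWins.full t p fun e he => ?_
    have : {e | p e = none} = ∅ := by
      rw [← Set.ncard_eq_zero (Set.toFinite _)]
      omega
    exact (this ▸ (he : e ∈ {e | p e = none}) : e ∈ (∅ : Set G.edgeSet))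
  | succ n ih =>
    intro t p hp
    by_cases hfull : ∀ e, p e ≠ none
    · exact AliceWins.full t p hfull
    · push Not at hfull
      have hb := not_bobWon G p hk
      cases t with
      | true =>
        obtain ⟨e, a, hl⟩ := exists_legal hb hfull
        refine AliceWins.alice p e a hb hl (ih false _ ?_)
        have := hdec p e a hl
        omega
      | false =>
        refine AliceWins.bob p hb hfull fun e a hl => ih true _ ?_
        have := hdec p e a hl
        omega

theorem exists_aliceWinsWith [Fintype V] (G : SimpleGraph V) : ∃ k, AliceWinsWith G k :=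
  ⟨Nat.card G.edgeSet, aliceWins_of_card G le_rfl _ _ _ le_rfl⟩

/-- The game chromatic index is the least `k` for which Alice has a winning strategy. -/
theorem aliceWinsWith_gameIndex [Fintype V] (G : SimpleGraph V) :
    AliceWinsWith G (gameIndex G) := Nat.sInf_mem (exists_aliceWinsWith G)

end Pool.Agent.H47.GE
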